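import Pool.Agent.RS.StmtsF

/-!
Row COP (squad RS): a prime polynomial with the variable `x_j` and a polynomial which it does not
divide are coprime over the field of fractions.
-/

set_option autoImplicit false

namespace Pool.Agent.RS.H41

open Pool.Agent.RS MvPolynomial

/-- COP. -/
theorem cop (txc : TxcStmt) (_pjb : PjbStmt) : CopStmt := by
  classical
  intro E _ j q b hq hj hqb
  have hXj : toX j (X j : MvPolynomial ℕ E) = Polynomial.X := by simp [toX]
  set I : Ideal (MvPolynomial ℕ E) := Ideal.span {q, b} with hI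
  have hqI : q ∈ I := Ideal.subset_span (by simp)
  have hbI : b ∈ I := Ideal.subset_span (by simp)
  have hex : ∃ n : ℕ, ∃ g ∈ I, g ≠ 0 ∧ (toX j g).natDegree = n := ⟨_, q, hqI, hq.ne_zero, rfl⟩
  obtain ⟨g, hgI, hg0, hgn⟩ := Nat.find_spec hex
  have hmin : ∀ f ∈ I, f ≠ 0 → (toX j g).natDegree ≤ (toX j f).natDegree := by
    intro f hf hf0
    rw [hgn]
    exact Nat.find_min' hex ⟨f, hf, hf0, rfl⟩
  have hne : ∀ f : MvPolynomial ℕ E, f ≠ 0 → toX j f ≠ 0 := fun f hf h =>
    hf (toX_injective j (by rw [h, map_zero]))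
  have hlc : ∀ f : MvPolynomial ℕ E, f ≠ 0 → (toX j f).leadingCoeff ≠ 0 ∧
      toX j ((toX j f).leadingCoeff) = Polynomial.C ((toX j f).leadingCoeff) := by
    intro f hf
    refine ⟨Polynomial.leadingCoeff_ne_zero.2 (hne f hf), ?_⟩
    apply (txc E j _).2.2.2.2
    intro h
    exact (Finset.mem_erase.1 ((txc E j f).2.1 _ h)).1 rfl
  have pd : ∀ n : ℕ, ∀ f ∈ I, (toX j f).natDegree = n →
      ∃ s, s ≠ 0 ∧ toX j s = Polynomial.C s ∧ g ∣ s * f := by
    intro n
    induction n using Nat.strong_induction_on with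
    | _ n ih =>
      intro f hf hfn
      by_cases hf0 : f = 0
      · exact ⟨1, one_ne_zero, by simp, by simp [hf0]⟩
      have h1 := hmin f hf hf0
      obtain ⟨hl0, hl⟩ := hlc g hg0
      obtain ⟨hc0, hc⟩ := hlc f hf0
      set l := (toX j g).leadingCoeff with hldef
      set c := (toX j f).leadingCoeff with hcdef
      set k := (toX j f).natDegree - (toX j g).natDegree with hk
      have e : toX j (l * f - c * X j ^ k * g) =
          Polynomial.C l * toX j f - Polynomial.C c * Polynomial.X ^ k * toX j g := by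
        rw [map_sub, map_mul, map_mul, map_mul, map_pow, hl, hc, hXj]
      by_cases hf'0 : l * f - c * X j ^ k * g = 0
      · exact ⟨l, hl0, hl, ⟨c * X j ^ k, by linear_combination hf'0⟩⟩
      · have hlt : (toX j (l * f - c * X j ^ k * g)).natDegree < n := by
          rw [← hfn]
          apply Polynomial.natDegree_lt_natDegree (hne _ hf'0)
          rw [e]
          have hd1 : (Polynomial.C l * toX j f).degree = (toX j f).degree :=
            Polynomial.degree_C_mul hl0
          rw [← hd1]
          apply Polynomial.degree_sub_lt_left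
          · rw [hd1, mul_assoc, Polynomial.degree_C_mul hc0, Polynomial.degree_mul,
              Polynomial.degree_X_pow, Polynomial.degree_eq_natDegree (hne f hf0),
              Polynomial.degree_eq_natDegree (hne g hg0), ← Nat.cast_add, hk,
              Nat.sub_add_cancel h1]
          · exact mul_ne_zero (Polynomial.C_ne_zero.2 hl0) (hne f hf0)
          · rw [Polynomial.leadingCoeff_mul, Polynomial.leadingCoeff_mul,
              Polynomial.leadingCoeff_mul, Polynomial.leadingCoeff_C, Polynomial.leadingCoeff_C,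
              Polynomial.leadingCoeff_X_pow, mul_one, mul_comm, ← hldef, ← hcdef]
        obtain ⟨s, hs0, hs1, t, ht⟩ := ih _ hlt _
          (I.sub_mem (I.mul_mem_left _ hf) (I.mul_mem_left _ hgI)) rfl
        refine ⟨s * l, mul_ne_zero hs0 hl0, by rw [map_mul, hs1, hl, Polynomial.C_mul],
          ⟨t + s * c * X j ^ k, ?_⟩⟩
        linear_combination ht
  have hqd : 0 < (toX j q).natDegree := (txc E j q).2.2.2.1.2 hj
  obtain ⟨s, hs0, hs1, h, hh⟩ := pd _ q hqI rfl
  obtain ⟨s', hs'0, hs'1, h', hh'⟩ := pd _ b hbI rfl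
  have hgd : (toX j g).natDegree = 0 := by
    have hdiv : q ∣ g * h := ⟨s, by rw [← hh]; ring⟩
    rcases hq.dvd_or_dvd hdiv with h1 | h1
    · exfalso
      have h2 : q ∣ s' * b := h1.trans ⟨h', hh'⟩
      rcases hq.dvd_or_dvd h2 with ⟨t, ht⟩ | h3
      · have h4 := congrArg (fun f => (toX j f).natDegree) ht
        simp only [hs'1, Polynomial.natDegree_C, map_mul] at h4
        have ht0 : t ≠ 0 := by
          rintro rfl
          exact hs'0 (by rw [ht, mul_zero])
        rw [Polynomial.natDegree_mul (hne q hq.ne_zero) (hne t ht0)] at h4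
        omega
      · exact hqb h3
    · obtain ⟨h2, rfl⟩ := h1
      have h3 : s = g * h2 := mul_right_cancel₀ hq.ne_zero (by rw [hh]; ring)
      have h4 := congrArg (fun f => (toX j f).natDegree) h3
      simp only [hs1, Polynomial.natDegree_C, map_mul] at h4
      have ht0 : h2 ≠ 0 := by
        rintro rfl
        exact hs0 (by rw [h3, mul_zero])
      rw [Polynomial.natDegree_mul (hne g hg0) (hne h2 ht0)] at h4
      omega
  have hgj : j ∉ g.vars := by
    intro hcon
    have := (txc E j g).2.2.2.1.2 hcon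
    omega
  have hgC : toX j g = Polynomial.C g := (txc E j g).2.2.2.2 hgj
  obtain ⟨α, β, hαβ⟩ := Ideal.mem_span_pair.1 hgI
  have hat : atX j (io E) g = Polynomial.C (io E g) := by
    change (toX j g).map (io E) = _
    rw [hgC, Polynomial.map_C]
  have hg1 : io E g ≠ 0 := fun h => hg0 (io_injective (by rw [h, map_zero]))
  have h5 : atX j (io E) α * atX j (io E) q + atX j (io E) β * atX j (io E) b =
      Polynomial.C (io E g) := by
    rw [← map_mul, ← map_mul, ← map_add, hαβ, hat]
  refine ⟨Polynomial.C (io E g)⁻¹ * atX j (io E) β, Polynomial.C (io E g)⁻¹ * atX j (io E) α, ?_⟩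
  have h6 : Polynomial.C (io E g)⁻¹ * Polynomial.C (io E g) = 1 := by
    rw [← Polynomial.C_mul, inv_mul_cancel₀ hg1, Polynomial.C_1]
  rw [← h6, ← h5]
  ring

end Pool.Agent.RS.H41
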