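import Pool.Agent.RS.StmtsT

/-!
Row GNA (squad RS): generators of one degree modulo decomposable elements.
-/

set_option autoImplicit false

namespace Pool.Agent.RS.H41

open Pool.Agent.RS

/-- GNA. -/
theorem gna : GnaStmt := by
  intro k B _ _ _ gr hG n hn
  have hdec : Dec gr n ≤ gr n := by
    refine Submodule.span_le.2 ?_
    rintro f ⟨a, b, -, -, hab, g, hg, h, hh, rfl⟩
    rw [← hab]
    exact hG.2.1 a b g hg h hh
  obtain ⟨C, hC⟩ := Submodule.exists_isCompl ((Dec gr n).comap (gr n).subtype)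
  let b := Module.Basis.ofVectorSpace k C
  have hsum : ∀ c : ↑(Module.Basis.ofVectorSpaceIndex k C) →₀ k,
      (c.sum fun z a => a • (((b z : C) : gr n) : B)) =
        (((c.sum fun z a => a • b z : C) : gr n) : B) := by
    intro c
    simp [Finsupp.sum]
  refine ⟨↑(Module.Basis.ofVectorSpaceIndex k C), fun z => ((b z : C) : gr n),
    fun z => (b z : gr n).2, ?_, ?_⟩
  · intro c hc
    rw [hsum] at hc
    have h1 : ((c.sum fun z a => a • b z : C) : gr n) ∈ (Dec gr n).comap (gr n).subtype := hc
    have h2 : ((c.sum fun z a => a • b z : C) : gr n) = 0 :=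
      Submodule.disjoint_def.1 hC.disjoint _ h1 (c.sum fun z a => a • b z : C).2
    have h3 : (c.sum fun z a => a • b z : C) = 0 := Subtype.ext h2
    exact (linearIndependent_iff.1 b.linearIndependent) c h3
  · intro f hf
    have htop : (⟨f, hf⟩ : gr n) ∈ ((Dec gr n).comap (gr n).subtype) ⊔ C := by
      rw [hC.sup_eq_top]; exact Submodule.mem_top
    obtain ⟨x, hx, y, hy, hxy⟩ := Submodule.mem_sup.1 htop
    refine ⟨b.repr ⟨y, hy⟩, ?_⟩
    have h1 : ((b.repr ⟨y, hy⟩).sum fun z a => a • b z : C) = ⟨y, hy⟩ :=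
      b.linearCombination_repr ⟨y, hy⟩
    have e := hsum (b.repr ⟨y, hy⟩)
    rw [h1] at e
    have h2 : f - ((b.repr ⟨y, hy⟩).sum fun z a => a • (((b z : C) : gr n) : B)) = (x : B) := by
      rw [e]
      have := congrArg (fun t : gr n => (t : B)) hxy
      simp only [Submodule.coe_add] at this
      rw [← this]; ring
    exact h2 ▸ hx

end Pool.Agent.RS.H41
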