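import Pool.Agent.RS.StmtsT

/-!
Row IND (squad RS): minimal generators are algebraically independent if there are enough
derivations.
-/

set_option autoImplicit false

namespace Pool.Agent.RS.H41

open Pool.Agent.RS MvPolynomial

/-- Elements of two different degrees vanish. -/
theorem gr_disj {k B : Type} [Field k] [CommRing B] [Algebra k B] {gr : ℕ → Submodule k B}
    (hG : Graded gr) {m n : ℕ} (hmn : m ≠ n) {f : B} (hm : f ∈ gr m) (hn : f ∈ gr n) : f = 0 := by
  classical
  have h := hG.2.2.2 (max m n + 1) (fun i => if i = m then f else if i = n then -f else 0)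
    (by
      intro i
      by_cases h1 : i = m
      · simp only [h1, if_true]; exact hm
      · by_cases h2 : i = n
        · simp only [h2, if_true]
          rw [if_neg (fun h => hmn h.symm)]
          exact (gr n).neg_mem hn
        · simp only [h1, h2, if_false]; exact (gr i).zero_mem)
    (by
      have h3 : ∀ i ∈ Finset.range (max m n + 1),
          (if i = m then f else if i = n then -f else 0) =
            (if i = m then f else 0) + (if i = n then -f else 0) := by
        intro i _
        by_cases h1 : i = m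
        · subst h1; simp [hmn]
        · simp [h1]
      rw [Finset.sum_congr rfl h3, Finset.sum_add_distrib, Finset.sum_ite_eq', Finset.sum_ite_eq',
        if_pos (Finset.mem_range.2 (by omega)), if_pos (Finset.mem_range.2 (by omega))]
      ring)
    m (by omega)
  simpa using h

/-- A variable of a weighted homogeneous polynomial has at most its weight. -/
theorem weight_var {k Y : Type} [Field k] {w : Y → ℕ} {Q : MvPolynomial Y k} {n : ℕ}
    (hQ : IsWeightedHomogeneous w Q n) {y : Y} (hy : y ∈ Q.vars) : w y ≤ n := by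
  classical
  obtain ⟨m, hm, hym⟩ := (mem_vars_iff_mem_support y).1 hy
  have h1 := hQ (mem_support_iff.1 hm)
  rw [← h1]
  have h2 : Finsupp.single y 1 ≤ m := by
    rw [Finsupp.single_le_iff]
    exact Nat.one_le_iff_ne_zero.2 (Finsupp.mem_support_iff.1 hym)
  have h3 : m = Finsupp.single y 1 + (m - Finsupp.single y 1) := (add_tsub_cancel_of_le h2).symm
  rw [h3, map_add, Finsupp.weight_single]
  simp

/-- A polynomial of weight zero is a constant. -/
theorem weight_zero {k Y : Type} [Field k] {w : Y → ℕ} (hw : ∀ y, 0 < w y) {Q : MvPolynomial Y k}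
    (hQ : IsWeightedHomogeneous w Q 0) : ∃ c, Q = C c := by
  classical
  have h : Q.vars = ∅ := by
    rw [Finset.eq_empty_iff_forall_notMem]
    intro y hy
    have := weight_var hQ hy
    have := hw y
    omega
  refine ⟨coeff 0 Q, ?_⟩
  rw [← totalDegree_eq_zero_iff_eq_C]
  rw [totalDegree_eq_zero_iff]
  intro m hm y
  by_contra hne
  have : y ∈ Q.vars := (mem_vars_iff_mem_support y).2 ⟨m, hm, Finsupp.mem_support_iff.2 hne⟩
  rw [h] at this
  simp at this

/-- IND. -/
theorem ind_core (hom : HomStmt) (lft : LftStmt) (top : TopStmt) (lin : LinStmt)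
    (k B Δ : Type) [Field k] [CharZero k] [CommRing B] [Nontrivial B] [Algebra k B]
    (gr : ℕ → Submodule k B) (Y : Type) (w : Y → ℕ) (g : Y → B) (d : Δ → Derivation k B B)
    (hG : Graded gr) (hM : MinGen gr w g) (hd : ∀ δ n, ∀ f ∈ gr (n + 1), d δ f ∈ gr n)
    (hker : ∀ f, (∀ δ, d δ f = 0) → f ∈ gr 0) :
    Function.Injective (aeval g : MvPolynomial Y k →ₐ[k] B) := by
  classical
  obtain ⟨hom1, hom2, hom3⟩ := hom k B gr Y w g hG hM
  rw [injective_iff_map_eq_zero]
  by_contra hcon
  push Not at hcon
  obtain ⟨P0, hP0, hP0'⟩ := hcon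
  have hex : ∃ N : ℕ, ∃ P : MvPolynomial Y k,
      IsWeightedHomogeneous w P N ∧ P ≠ 0 ∧ aeval g P = 0 := by
    by_contra hno
    push Not at hno
    apply hP0'
    rw [← sum_weightedHomogeneousComponent w P0]
    apply finsum_eq_zero_of_forall_eq_zero
    intro n
    by_contra hne
    exact hno n _ (weightedHomogeneousComponent_isWeightedHomogeneous n P0) hne (hom3 P0 hP0 n)
  obtain ⟨P, hPN, hP, hPg⟩ := Nat.find_spec hex
  set N := Nat.find hex with hNdef
  have hmin : ∀ M < N, ∀ Q : MvPolynomial Y k, IsWeightedHomogeneous w Q M →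
      aeval g Q = 0 → Q = 0 := by
    intro M hM Q hQ hQg
    by_contra hne
    exact Nat.find_min hex hM ⟨Q, hQ, hne, hQg⟩
  have hw : ∀ y, 0 < w y := fun y => (hM.1 y).1
  have hvar : P.vars.Nonempty := by
    by_contra hemp
    rw [Finset.not_nonempty_iff_eq_empty] at hemp
    have h0 : P = C (coeff 0 P) := by
      rw [← totalDegree_eq_zero_iff_eq_C, totalDegree_eq_zero_iff]
      intro m hm y
      by_contra hne
      have : y ∈ P.vars := (mem_vars_iff_mem_support y).2 ⟨m, hm, Finsupp.mem_support_iff.2 hne⟩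
      rw [hemp] at this
      simp at this
    rw [h0, aeval_C] at hPg
    have h1 : coeff 0 P = 0 := (map_eq_zero (algebraMap k B)).1 hPg
    rw [h1, C_0] at h0
    exact hP h0
  obtain ⟨y, hy, hymax⟩ := Finset.exists_max_image P.vars w hvar
  have hwy : 0 < w y := hw y
  obtain ⟨n, v, a, b, hn, ha, hya, hyb, hav, hbv, hah, hvN, hbh, hD⟩ := top k Y w P N y hPN hy
  have hnw : 0 < n * w y := Nat.mul_pos hn hwy
  have hlift : ∀ δ, ∃ D : Derivation k (MvPolynomial Y k) (MvPolynomial Y k),
      (∀ P, aeval g (D P) = d δ (aeval g P)) ∧ D a = 0 ∧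
        D b + (n : k) • (a * D (X y)) = 0 := by
    intro δ
    obtain ⟨D, hD1, hD2, hD3⟩ := lft k B gr Y w g (d δ) hG hM (hd δ)
    refine ⟨D, hD1, hD D ?_ ?_⟩
    · intro z hz hyz
      have h1 := weight_var (hD2 z) hyz
      have h2 := hymax z hz
      have h3 := hw z
      omega
    · obtain ⟨N', hN'⟩ : ∃ N', N = N' + 1 := ⟨N - 1, by omega⟩
      apply hmin N' (by omega) _ (hD3 N' P (hN' ▸ hPN))
      rw [hD1, hPg, map_zero]
  have ha0 : aeval g a ∈ gr 0 := by
    apply hker
    intro δ
    obtain ⟨D, h1, h2, -⟩ := hlift δ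
    rw [← h1, h2, map_zero]
  have hv : v = 0 := by
    by_contra hv
    have h1 : aeval g a = 0 := gr_disj hG hv (hom1 v a hah) ha0
    exact ha (hmin v (by omega) a hah h1)
  rw [hv] at hah hbh
  obtain ⟨α, hα⟩ := weight_zero hw hah
  have hα0 : α ≠ 0 := by
    rintro rfl
    exact ha (by rw [hα, C_0])
  rw [zero_add] at hbh
  have hR0 : aeval g (b + (n : k) • (a * X y)) ∈ gr 0 := by
    apply hker
    intro δ
    obtain ⟨D, h1, h2, h3⟩ := hlift δ
    rw [← h1, map_add, Derivation.map_smul, Derivation.leibniz, h2, smul_zero, add_zero,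
      smul_eq_mul, h3, map_zero]
  have hRw : aeval g (b + (n : k) • (a * X y)) ∈ gr (w y) := by
    apply hom1
    refine (weightedHomogeneousSubmodule k w (w y)).add_mem hbh ?_
    refine (weightedHomogeneousSubmodule k w (w y)).smul_mem _ ?_
    have h1 := hah.mul (isWeightedHomogeneous_X k w y)
    rwa [zero_add] at h1
  have hR : aeval g (b + (n : k) • (a * X y)) = 0 := gr_disj hG (by omega) hR0 hRw
  have hR' : aeval g b + ((n : k) * α) • g y = 0 := by
    rw [← hR, map_add, map_smul, map_mul, aeval_X, hα, aeval_C, mul_smul, Algebra.smul_def α]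
  obtain ⟨c, hc1, hc2⟩ := lin k B gr Y w g hG hM (w y) hwy b hbh
  have hcy : c y = 0 := by
    by_contra hne
    exact hyb (hc1 y (Finsupp.mem_support_iff.2 hne)).2
  have hfin := hM.2.2 (w y) (c + Finsupp.single y ((n : k) * α)) (by
      intro z hz
      by_cases hzy : z = y
      · rw [hzy]
      · have : c z ≠ 0 := by
          have h4 := Finsupp.mem_support_iff.1 hz
          rw [Finsupp.add_apply, Finsupp.single_apply, if_neg (fun h => hzy h.symm), add_zero] at h4
          exact h4
        exact (hc1 z (Finsupp.mem_support_iff.2 this)).1) (by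
      rw [Finsupp.sum_add_index' (h := fun z a => a • g z) (fun z => zero_smul k (g z))
        (fun z a₁ a₂ => add_smul a₁ a₂ (g z)), Finsupp.sum_single_index (zero_smul k (g y))]
      have h5 : (c.sum fun z a => a • g z) + ((n : k) * α) • g y =
          -(aeval g b - c.sum fun z a => a • g z) := by
        have h6 : aeval g b = -(((n : k) * α) • g y) := eq_neg_of_add_eq_zero_left hR'
        rw [h6]; ring
      rw [h5]
      exact (Dec gr (w y)).neg_mem hc2)
  have h7 := DFunLike.congr_fun hfin y
  rw [Finsupp.add_apply, Finsupp.single_eq_same, hcy, zero_add, Finsupp.zero_apply] at h7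
  have h8 : (n : k) ≠ 0 := Nat.cast_ne_zero.2 (by omega)
  exact (mul_ne_zero h8 hα0) h7

/-- IND. -/
theorem ind (hom : HomStmt) (lft : LftStmt) (top : TopStmt) (lin : LinStmt) : IndStmt := by
  intro k B Δ _ _ _ _ _ gr Y w g d hG hM hd hker
  exact ind_core hom lft top lin k B Δ gr Y w g d hG hM hd hker

end Pool.Agent.RS.H41
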