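import Pool.Agent.RS.StmtsF

/-!
Row TRA (squad RS): the universal residue of one term.
-/

set_option autoImplicit false

namespace Pool.Agent.RS.H41

open Pool.Agent.RS MvPolynomial

/-- The coefficients of a power: total degree. -/
theorem coeff_pow_deg {E : Type} [Field E] (Q : Polynomial (MvPolynomial ℕ E)) (D : ℕ)
    (hQ : ∀ i, (Q.coeff i).totalDegree ≤ D) (B : ℕ) :
    ∀ i, ((Q ^ B).coeff i).totalDegree ≤ B * D := by
  induction B with
  | zero =>
    intro i
    rw [pow_zero, Polynomial.coeff_one]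
    split_ifs <;> simp
  | succ B ih =>
    intro i
    rw [pow_succ, Polynomial.coeff_mul]
    refine totalDegree_finsetSum_le fun x _ => ?_
    refine (totalDegree_mul _ _).trans ?_
    have h1 := ih x.1
    have h2 := hQ x.2
    nlinarith

/-- The coefficients of a power: subrings. -/
theorem coeff_pow_mem {R : Type} [CommRing R] (S : Subring R) (Q : Polynomial R)
    (hQ : ∀ i, Q.coeff i ∈ S) (B : ℕ) : ∀ i, (Q ^ B).coeff i ∈ S := by
  induction B with
  | zero =>
    intro i
    rw [pow_zero, Polynomial.coeff_one]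
    split_ifs
    · exact S.one_mem
    · exact S.zero_mem
  | succ B ih =>
    intro i
    rw [pow_succ, Polynomial.coeff_mul]
    exact S.sum_mem fun x _ => S.mul_mem (ih x.1) (hQ x.2)

/-- TRA. -/
theorem tra (trm : TrmStmt) (smp : SmpStmt) (sdg : SdgStmt) (ssb : SsbStmt) (nzd : NzdStmt)
    (pjb : PjbStmt) (txc : TxcStmt) (res : ResStmt) : TraStmt := by
  classical
  intro D B c hB
  obtain ⟨m, hm⟩ : ∃ m, m = D + c + 1 := ⟨_, rfl⟩
  refine ⟨(m + B * D) * (B * D + D) + (B * D + D) + B * D, ?_⟩
  intro E _ j q a b hq ha hb hj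
  obtain ⟨-, -, -, pj4, -, -, -, -⟩ := pjb E
  obtain ⟨tq1, tq2, tq3, tq4, -⟩ := txc E j q
  obtain ⟨ta1, ta2, ta3, -, -⟩ := txc E j a
  obtain ⟨tb1, tb2, tb3, -, -⟩ := txc E j b
  have hδ0 : 0 < (toX j q).natDegree := tq4.2 hj
  have hδD : (toX j q).natDegree ≤ D := tq3.trans hq
  set δ := (toX j q).natDegree with hδ
  set Q := toX j q with hQ
  set P : Polynomial (MvPolynomial ℕ E) := Polynomial.X ^ c * toX j a with hP
  have hPc : ∀ i, P.coeff i = if c ≤ i then (toX j a).coeff (i - c) else 0 := fun i =>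
    Polynomial.coeff_X_pow_mul' _ _ _
  have hmono : (m + B * δ) * (B * D + D) ≤ (m + B * D) * (B * D + D) := by
    apply Nat.mul_le_mul_right
    have : B * δ ≤ B * D := Nat.mul_le_mul_left _ hδD
    omega
  have hQB := coeff_pow_deg Q D (fun i => (tq1 i).trans hq) B
  obtain ⟨s1, s2, s3⟩ := sdg E m (B * δ) (B * D + D) (toX j b) (Q ^ B) P
    (fun i => ((tb1 i).trans hb).trans (Nat.le_add_left _ _))
    (fun i => (hQB i).trans (Nat.le_add_right _ _))
    (fun i => by
      rw [hPc]
      split_ifs
      · exact ((ta1 _).trans ha).trans (Nat.le_add_left _ _)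
      · simp)
  refine ⟨numT m B δ Q (toX j b) P, denT m B δ Q (toX j b), ?_, ?_, ?_, ?_, ?_⟩
  · refine (s1 _).trans ?_
    omega
  · refine (totalDegree_mul _ _).trans ?_
    have h1 : (Q.coeff δ ^ B).totalDegree ≤ B * D := by
      refine (totalDegree_pow _ _).trans ?_
      exact Nat.mul_le_mul_left _ ((tq1 δ).trans hq)
    omega
  · intro J hqJ haJ hbJ
    have cq : ∀ i, Q.coeff i ∈ PJ E (insert j J) := pj4 J j q hqJ
    obtain ⟨u1, u2, u3⟩ := ssb (MvPolynomial ℕ E) (PJ E (insert j J)) m (B * δ) (toX j b) (Q ^ B) P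
      (pj4 J j b hbJ) (coeff_pow_mem _ Q cq B) (fun i => by
        rw [hPc]
        split_ifs
        · exact pj4 J j a haJ _
        · exact (PJ E (insert j J)).zero_mem)
    exact ⟨u1 _, (PJ E (insert j J)).mul_mem u3 ((PJ E (insert j J)).pow_mem (cq δ) B)⟩
  · intro hprime hndvd
    exact nzd E j q b m B hprime hj hndvd (by omega) hB
  · intro L _ φ hφ
    have ea : atX j φ a = (toX j a).map φ := rfl
    have eb : atX j φ b = (toX j b).map φ := rfl
    have eq' : atX j φ q = Q.map φ := rfl
    have eP : P.map φ = Polynomial.X ^ c * (toX j a).map φ := by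
      rw [hP, Polynomial.map_mul, Polynomial.map_pow, Polynomial.map_X]
    have hlead : φ Q.leadingCoeff ≠ 0 := by
      intro h0
      apply hφ
      have h1 : Q.coeff δ = Q.leadingCoeff := rfl
      unfold denT
      rw [map_mul, map_pow, h1, h0, zero_pow (by omega), mul_zero]
    have hnd : (Q.map φ).natDegree = δ := Polynomial.natDegree_map_of_leadingCoeff_ne_zero φ hlead
    obtain ⟨e1, e2⟩ := smp (MvPolynomial ℕ E) L φ m B δ Q (toX j b) P
    have hpos : 0 < (Q.map φ).natDegree := by rw [hnd]; exact hδ0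
    have hda : ((toX j a).map φ).natDegree ≤ D := Polynomial.natDegree_map_le.trans (ta3.trans ha)
    obtain ⟨h1, h2, h3⟩ := trm L (Q.map φ) ((toX j b).map φ) (P.map φ)
      (Pool.Agent.RS.res (Q.map φ)) B m (res L (Q.map φ) hpos) hB hpos
      (Polynomial.natDegree_map_le.trans (by omega)) (by
        refine lt_of_le_of_lt (Polynomial.degree_le_natDegree) ?_
        rw [eP]
        have h5 : (Polynomial.X ^ c * (toX j a).map φ).natDegree ≤ c + D := by
          refine Polynomial.natDegree_mul_le.trans ?_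
          have := Polynomial.natDegree_X_pow_le (R := L) c
          omega
        exact_mod_cast (by omega : (Polynomial.X ^ c * (toX j a).map φ).natDegree <
          m + B * (Q.map φ).natDegree)) (by rw [hnd, e2]; exact hφ)
    refine ⟨h1, ?_, hpos, ?_⟩
    · intro h0
      rw [eq'] at h0
      rw [h0, Polynomial.natDegree_zero] at hpos
      exact lt_irrefl _ hpos
    · rw [hnd, e1, e2] at h3
      rw [← h3, eP, ea, eb, eq', map_mul (algebraMap (Polynomial L) (RatFunc L)), mul_div_assoc]

end Pool.Agent.RS.H41
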